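import Pool.Agent.H17.Conv8

set_option autoImplicit false

namespace Pool.Agent.Results.MP_49e939_nt.Valuation

/-- `t_k = C(6k, 3k) C(3k, k)` -/
def t (k : ℕ) : ℕ := (6 * k).choose (3 * k) * (3 * k).choose k

/-- the normalised convolution `a(n)` -/
def a (n : ℕ) : ℚ :=
  (∑ k ∈ Finset.range (n + 1), (t k : ℚ) * t (n - k)) / ((2 * n - 1) * ((3 * n).choose n : ℚ))

theorem result : ∀ n : ℕ, 1 ≤ n →
    a n ≠ 0 ∧ 3 ≤ padicValRat 2 (a n) ∧ (padicValRat 2 (a n) = 3 ↔ ∃ j : ℕ, n = 2 ^ j) := by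
  intro n hn
  open Pool.Agent.H17.Conv8 in
  have e : a n = (S n : ℚ) / (((2 * n - 1) * (3 * n).choose n : ℕ) : ℚ) := by
    simp only [a, S]; push_cast [Nat.cast_sub (by omega : 1 ≤ 2 * n)]; rfl
  have hc : (3 * n).choose n ≠ 0 := (Nat.choose_pos (by omega)).ne'
  have hd : (2 * n - 1) * (3 * n).choose n ≠ 0 := mul_ne_zero (by omega) hc
  have hS := Pool.Agent.H17.Conv8.S_pos n
  have h1 := Pool.Agent.H17.Conv8.ch n (2 * n)
  rw [show n + 2 * n = 3 * n by ring, Pool.Agent.H17.Conv8.s_two] at h1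
  have h2 : padicValNat 2 (2 * n - 1) = 0 := padicValNat.eq_zero_of_not_dvd (by omega)
  have hv : padicValRat 2 (a n) = (padicValNat 2 (Pool.Agent.H17.Conv8.S n) : ℤ) -
      padicValNat 2 ((3 * n).choose n) := by
    rw [e, padicValRat.div (by exact_mod_cast hS) (by exact_mod_cast hd), padicValRat.of_nat,
      padicValRat.of_nat, padicValNat.mul (by omega) hc, h2, zero_add]
  obtain ⟨b1, b2⟩ := Pool.Agent.H17.Conv8.S_val n hn
  have h3 : 2 ≤ Pool.Agent.H17.Conv8.s (3 * n) := by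
    have := Pool.Agent.H17.Conv8.s_pos (3 * n) (by omega)
    by_contra hc
    obtain ⟨j, hj⟩ := Pool.Agent.H17.Conv8.s_one (3 * n) (by omega)
    have := Nat.prime_three.dvd_of_dvd_pow (hj ▸ dvd_mul_right 3 n)
    omega
  refine ⟨by rw [e]; exact div_ne_zero (by exact_mod_cast hS) (by exact_mod_cast hd), ?_⟩
  rw [hv]
  by_cases h : Pool.Agent.H17.Conv8.s n = 1
  · obtain ⟨j, rfl⟩ := Pool.Agent.H17.Conv8.s_one n h
    have h4 : Pool.Agent.H17.Conv8.s (3 * 2 ^ j) = 2 := by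
      rw [Pool.Agent.H17.Conv8.s_pow]; simp [Pool.Agent.H17.Conv8.s]
    have := b1 h
    exact ⟨by omega, fun _ => ⟨j, rfl⟩, fun _ => by omega⟩
  · have := b2 h
    refine ⟨by omega, fun _ => by omega, ?_⟩
    rintro ⟨j, rfl⟩
    have h4 := Pool.Agent.H17.Conv8.s_pow 1 j
    rw [one_mul] at h4
    exact absurd (h4.trans (by simp [Pool.Agent.H17.Conv8.s])) h

end Pool.Agent.Results.MP_49e939_nt.Valuation
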